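import Pool.Agent.W966.Mm.Lin
import Pool.Agent.W966.Vf.Stms2

/-!
# VF-BLK: blocks which avoid a space of matrices, over an infinite field
(copied from `Pool.Agent.W966.Mm.Block`)
-/

namespace Pool.Agent.W101.VF

open Module Pool.Agent.W966.Mm

section

variable {Ω : Type} [Field Ω] [Infinite Ω] {a b : ℕ}

/-- Finitely many small subspaces are avoided by the image of an injective matrix. -/
lemma exists_avoid {ι : Type} [Finite ι] (S : ι → Submodule Ω (Fin a → Ω)) {m : ℕ}
    (hS : ∀ j, finrank Ω (S j) + m ≤ a) :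
    ∀ r ≤ m, ∃ p : Fin r → (Fin a → Ω), ∀ j, ∀ z : Fin r → Ω, ∑ i, z i • p i ∈ S j → z = 0 := by
  classical
  have := Fintype.ofFinite ι
  intro r
  induction r with
  | zero => exact fun _ => ⟨fun i => i.elim0, fun _ z _ => funext fun i => i.elim0⟩
  | succ r ih =>
    intro hr
    obtain ⟨p, hp⟩ := ih (by omega)
    -- a vector outside of finitely many proper subspaces
    let V : ι → Submodule Ω (Fin a → Ω) := fun j => S j ⊔ Submodule.span Ω (Set.range p)
    have hV : ∀ j, V j ≠ ⊤ := by
      intro j hj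
      have h1 : finrank Ω (V j) ≤ finrank Ω (S j) + r := by
        refine (Submodule.finrank_add_le_finrank_add_finrank _ _).trans ?_
        have h2 : finrank Ω (Submodule.span Ω (Set.range p)) ≤ r := by
          have := finrank_range_le_card (R := Ω) p
          rwa [Fintype.card_fin] at this
        omega
      rw [hj, finrank_top, finrank_fin_fun] at h1
      have := hS j
      omega
    obtain ⟨v, hv⟩ : ∃ v : Fin a → Ω, ∀ j, v ∉ V j := by
      by_contra hcon
      push Not at hcon
      have hcov : ⋃ W ∈ (Finset.univ.image V), (W : Set (Fin a → Ω)) = Set.univ := by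
        refine Set.eq_univ_of_forall fun v => ?_
        obtain ⟨j, hj⟩ := hcon v
        exact Set.mem_biUnion (Finset.mem_coe.mpr (Finset.mem_image.mpr ⟨j, Finset.mem_univ _, rfl⟩))
          hj
      have htop := Subspace.top_mem_of_biUnion_eq_univ hcov
      obtain ⟨j, -, hj⟩ := Finset.mem_image.mp htop
      exact hV j hj
    refine ⟨Fin.snoc p v, fun j z hz => ?_⟩
    rw [Fin.sum_univ_castSucc] at hz
    simp only [Fin.snoc_castSucc, Fin.snoc_last] at hz
    have hlast : z (Fin.last r) = 0 := by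
      by_contra hne
      apply hv j
      have h1 : ∑ i : Fin r, z i.castSucc • p i ∈ V j :=
        Submodule.sum_mem _ fun i _ => Submodule.smul_mem _ _
          (le_sup_right (a := S j) (Submodule.subset_span ⟨i, rfl⟩))
      have h2 : z (Fin.last r) • v ∈ V j := by
        have := Submodule.sub_mem _ (le_sup_left (b := Submodule.span Ω (Set.range p)) hz) h1
        rwa [add_sub_cancel_left] at this
      have h3 := Submodule.smul_mem _ (z (Fin.last r))⁻¹ h2
      rwa [smul_smul, inv_mul_cancel₀ hne, one_smul] at h3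
    rw [hlast, zero_smul, add_zero] at hz
    have h4 := hp j (fun i => z i.castSucc) hz
    funext i
    refine Fin.lastCases hlast (fun i => ?_) i
    exact congrFun h4 i

/-- The evaluation of matrices at a vector. -/
def evm (v : Fin b → Ω) : Matrix (Fin a) (Fin b) Ω →ₗ[Ω] (Fin a → Ω) where
  toFun x := x.mulVec v
  map_add' x y := Matrix.add_mulVec x y v
  map_smul' c x := Matrix.smul_mulVec c x v

/-- The matrices of `T` which vanish on `U`. -/
def TU (T : Submodule Ω (Matrix (Fin a) (Fin b) Ω)) (U : Submodule Ω (Fin b → Ω)) :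
    Submodule Ω (Matrix (Fin a) (Fin b) Ω) where
  carrier := {x | x ∈ T ∧ ∀ u ∈ U, x.mulVec u = 0}
  add_mem' := fun {x y} hx hy => ⟨T.add_mem hx.1 hy.1, fun u hu => by
    rw [Matrix.add_mulVec, hx.2 u hu, hy.2 u hu, add_zero]⟩
  zero_mem' := ⟨T.zero_mem, fun u _ => Matrix.zero_mulVec u⟩
  smul_mem' := fun c x hx => ⟨T.smul_mem c hx.1, fun u hu => by
    rw [Matrix.smul_mulVec, hx.2 u hu, smul_zero]⟩

/-- The greedy choice. -/
lemma greedy (T : Submodule Ω (Matrix (Fin a) (Fin b) Ω)) (c : ℕ) :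
    ∃ U : Submodule Ω (Fin b → Ω), finrank Ω U ≤ c ∧ ∃ e : ℕ,
      (∀ v, finrank Ω ((TU T U).map (evm v)) ≤ e) ∧ (∃ v, finrank Ω ((TU T U).map (evm v)) = e) ∧
      c * e + finrank Ω (TU T U) ≤ finrank Ω T := by
  have hmax : ∀ S : Submodule Ω (Matrix (Fin a) (Fin b) Ω), ∃ e : ℕ,
      (∀ v, finrank Ω (S.map (evm v)) ≤ e) ∧ ∃ v, finrank Ω (S.map (evm v)) = e := by
    intro S
    have hb : ∀ v, finrank Ω (S.map (evm v)) ≤ finrank Ω S := fun v =>
      Submodule.finrank_map_le _ _
    let s : Set ℕ := Set.range fun v : Fin b → Ω => finrank Ω (S.map (evm v))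
    have hne : s.Nonempty := ⟨_, 0, rfl⟩
    have hbd : BddAbove s := ⟨finrank Ω S, by rintro _ ⟨v, rfl⟩; exact hb v⟩
    refine ⟨sSup s, fun v => le_csSup hbd ⟨v, rfl⟩, ?_⟩
    obtain ⟨v, hv⟩ := Nat.sSup_mem hne hbd
    exact ⟨v, hv⟩
  induction c with
  | zero =>
    obtain ⟨e, he1, he2⟩ := hmax (TU T ⊥)
    refine ⟨⊥, by simp, e, he1, he2, ?_⟩
    rw [zero_mul, zero_add]
    exact Submodule.finrank_mono fun x hx => hx.1
  | succ c ih =>
    obtain ⟨U, hU, e, he1, ⟨v, hv⟩, hdim⟩ := ih
    obtain ⟨e', he1', he2'⟩ := hmax (TU T (U ⊔ Submodule.span Ω {v}))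
    refine ⟨U ⊔ Submodule.span Ω {v}, ?_, e', he1', he2', ?_⟩
    · refine (Submodule.finrank_add_le_finrank_add_finrank _ _).trans ?_
      have := finrank_span_le_card (R := Ω) ({v} : Set (Fin b → Ω))
      rw [Set.toFinset_singleton, Finset.card_singleton] at this
      omega
    · have hle : TU T (U ⊔ Submodule.span Ω {v}) ≤ TU T U := fun x hx =>
        ⟨hx.1, fun u hu => hx.2 u (Submodule.mem_sup_left hu)⟩
      have hee : e' ≤ e := by
        obtain ⟨v', hv'⟩ := he2'
        rw [← hv']
        exact (Submodule.finrank_mono (Submodule.map_mono hle)).trans (he1 v')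
      have hrn : finrank Ω (TU T (U ⊔ Submodule.span Ω {v})) + e ≤ finrank Ω (TU T U) := by
        let ρ : TU T U →ₗ[Ω] (Fin a → Ω) := (evm v).domRestrict (TU T U)
        have h1 := LinearMap.finrank_range_add_finrank_ker ρ
        have h2 : LinearMap.range ρ = (TU T U).map (evm v) := by
          rw [LinearMap.range_domRestrict]
        rw [h2, hv] at h1
        have h3 : finrank Ω (TU T (U ⊔ Submodule.span Ω {v})) ≤ finrank Ω (LinearMap.ker ρ) := by
          let j : TU T (U ⊔ Submodule.span Ω {v}) →ₗ[Ω] LinearMap.ker ρ :=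
            LinearMap.codRestrict _ (Submodule.inclusion hle) fun x => by
              show (x : Matrix (Fin a) (Fin b) Ω).mulVec v = 0
              exact x.2.2 v (Submodule.mem_sup_right (Submodule.mem_span_singleton_self v))
          refine LinearMap.finrank_le_finrank_of_injective (f := j) ?_
          intro x y hxy
          have := congrArg (fun z => (((z : LinearMap.ker ρ) : TU T U) :
            Matrix (Fin a) (Fin b) Ω)) hxy
          exact Subtype.ext this
        omega
      calc (c + 1) * e' + finrank Ω (TU T (U ⊔ Submodule.span Ω {v}))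
          ≤ (c + 1) * e + finrank Ω (TU T (U ⊔ Submodule.span Ω {v})) :=
            Nat.add_le_add_right (Nat.mul_le_mul_left _ hee) _
        _ = c * e + (finrank Ω (TU T (U ⊔ Submodule.span Ω {v})) + e) := by ring
        _ ≤ c * e + finrank Ω (TU T U) := Nat.add_le_add_left hrn _
        _ ≤ finrank Ω T := hdim

/-- **The block lemma**, with a right inverse. -/
theorem block_full (T : Submodule Ω (Matrix (Fin a) (Fin b) Ω)) {m : ℕ} (ha : m ≤ a) (hb : m ≤ b)
    (hdim : finrank Ω T < (a - m + 1) * (b - m + 1)) :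
    ∃ (P : Matrix (Fin a) (Fin m) Ω) (R : Matrix (Fin m) (Fin b) Ω)
      (R' : Matrix (Fin b) (Fin m) Ω), R * R' = 1 ∧
      ∀ y : Matrix (Fin m) (Fin m) Ω, P * y * R ∈ T → y = 0 := by
  classical
  obtain ⟨U, hU, e, he1, ⟨v₀, hv₀⟩, hdim'⟩ := greedy T (b - m)
  have he : e ≤ a - m := by
    have h1 : e ≤ finrank Ω (TU T U) := by
      rw [← hv₀]
      exact Submodule.finrank_map_le _ _
    have h2 : (b - m + 1) * e < (b - m + 1) * (a - m + 1) := by
      calc (b - m + 1) * e = (b - m) * e + e := by ring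
        _ ≤ (b - m) * e + finrank Ω (TU T U) := Nat.add_le_add_left h1 _
        _ ≤ finrank Ω T := hdim'
        _ < (a - m + 1) * (b - m + 1) := hdim
        _ = (b - m + 1) * (a - m + 1) := by ring
    have := Nat.lt_of_mul_lt_mul_left h2
    omega
  -- functionals which vanish on `U`
  obtain ⟨ι, π, hπ⟩ := exists_retract (K := Ω) (A := U) (B := Fin (b - m) → Ω)
    (by rw [finrank_fin_fun]; exact hU)
  let Ub : Matrix (Fin (b - m)) (Fin b) Ω :=
    (LinearMap.toMatrix' (U.subtype ∘ₗ π)).transpose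
  obtain ⟨N, N', hN1, hN2⟩ := ker_fact (m := m) (by omega : m + (b - m) ≤ b) Ub
  have hUN : ∀ u ∈ U, N.transpose.mulVec u = 0 := by
    intro u hu
    have h1 : u = (LinearMap.toMatrix' (U.subtype ∘ₗ π)).mulVec (ι ⟨u, hu⟩) := by
      rw [LinearMap.toMatrix'_mulVec]
      have := LinearMap.congr_fun hπ ⟨u, hu⟩
      simp only [LinearMap.comp_apply, LinearMap.id_apply] at this
      simp only [LinearMap.comp_apply, this]
      rfl
    have h2 : N.transpose * LinearMap.toMatrix' (U.subtype ∘ₗ π) = 0 := by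
      have := congrArg Matrix.transpose hN1
      rwa [Matrix.transpose_mul, Matrix.transpose_transpose, Matrix.transpose_zero] at this
    rw [h1, Matrix.mulVec_mulVec, h2, Matrix.zero_mulVec]
  have hNN : N.transpose * N'.transpose = 1 := by
    rw [← Matrix.transpose_mul, hN2, Matrix.transpose_one]
  -- the vectors on which the block is tested
  let w : Fin m → (Fin b → Ω) := fun j => N'.transpose.mulVec (Pi.single j 1)
  obtain ⟨p, hp⟩ := exists_avoid (fun j : Fin m => (TU T U).map (evm (w j))) (m := m) (fun j => by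
    have := he1 (w j)
    omega) m le_rfl
  refine ⟨Matrix.of fun i j => p j i, N.transpose, N'.transpose, hNN, fun y hy => ?_⟩
  set P : Matrix (Fin a) (Fin m) Ω := Matrix.of fun i j => p j i with hP
  have hPv : ∀ z : Fin m → Ω, P.mulVec z = ∑ i, z i • p i := by
    intro z
    funext i
    rw [Finset.sum_apply]
    simp only [Matrix.mulVec, dotProduct, hP, Matrix.of_apply, Pi.smul_apply, smul_eq_mul]
    exact Finset.sum_congr rfl fun j _ => mul_comm _ _
  have hmem : P * y * N.transpose ∈ TU T U := by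
    refine ⟨hy, fun u hu => ?_⟩
    rw [← Matrix.mulVec_mulVec, hUN u hu, Matrix.mulVec_zero]
  have hcol : ∀ j, y.mulVec (Pi.single j 1) = 0 := by
    intro j
    refine hp j _ ?_
    rw [← hPv]
    refine ⟨P * y * N.transpose, hmem, ?_⟩
    show (P * y * N.transpose).mulVec (w j) = _
    simp only [w]
    rw [Matrix.mulVec_mulVec, Matrix.mul_assoc, hNN, Matrix.mul_one, Matrix.mulVec_mulVec]
  refine Matrix.ext fun i j => ?_
  have := congrFun (hcol j) i
  rw [Matrix.mulVec_single_one] at this
  exact this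

/-- **The block lemma.** -/
theorem block (T : Submodule Ω (Matrix (Fin a) (Fin b) Ω)) {m : ℕ} (ha : m ≤ a) (hb : m ≤ b)
    (hdim : finrank Ω T < (a - m + 1) * (b - m + 1)) :
    ∃ (P : Matrix (Fin a) (Fin m) Ω) (R : Matrix (Fin m) (Fin b) Ω),
      ∀ y : Matrix (Fin m) (Fin m) Ω, P * y * R ∈ T → y = 0 := by
  obtain ⟨P, R, -, -, h⟩ := block_full T ha hb hdim
  exact ⟨P, R, h⟩

/-- **VF-BLK** -/
theorem blk : Pool.Agent.W966.Vf.S_BLK := by
  intro Ω _ _ a m T ha hdim
  obtain ⟨P, R, h⟩ := block T ha ha hdim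
  let J : Matrix (Fin m) (Fin m) Ω →ₗ[Ω] (Matrix (Fin a) (Fin a) Ω ⧸ T) :=
    T.mkQ ∘ₗ mulRightLinearMap (Fin a) Ω R ∘ₗ mulLeftLinearMap (Fin m) Ω P
  have hJ : ∀ y, J y = T.mkQ (P * y * R) := fun _ => rfl
  have hker : LinearMap.ker J = ⊥ := by
    rw [LinearMap.ker_eq_bot']
    intro y hy
    refine h y ?_
    rw [hJ, Submodule.mkQ_apply, Submodule.Quotient.mk_eq_zero] at hy
    exact hy
  obtain ⟨G, hG⟩ := LinearMap.exists_leftInverse_of_injective J hker
  refine ⟨P, R, G ∘ₗ T.mkQ, fun y => ?_, fun x hx => ?_⟩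
  · exact LinearMap.congr_fun hG y
  · rw [LinearMap.comp_apply, Submodule.mkQ_apply, (Submodule.Quotient.mk_eq_zero T).mpr hx,
      map_zero]

end

end Pool.Agent.W101.VF
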